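import Mathlib

/-!
# From the law of the vectors to the law of the sets of the indices with the value zero
-/

set_option autoImplicit false

open Filter
open scoped Topology Classical

namespace Pool.Agent.H508.W

variable {m : ℕ} {α : Type} {C : ℕ → Set α} {f : α → Fin m → ℕ} {p : ℕ → ℝ}

/-- the share of the elements of the set `C X` with the property `P` -/
noncomputable def shr (C : ℕ → Set α) (P : α → Prop) (X : ℕ) : ℝ :=
  (({D ∈ C X | P D}.ncard : ℕ) : ℝ) / ((C X).ncard : ℝ)

lemma shr_nonneg (P : α → Prop) (X : ℕ) : 0 ≤ shr C P X := by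
  unfold shr
  positivity

/-- the shares of disjoint events -/
lemma shr_sum (hfin : ∀ X, (C X).Finite) {ι : Type} (s : Finset ι) (P : ι → α → Prop)
    (Q : α → Prop) (h1 : ∀ i ∈ s, ∀ D, P i D → Q D)
    (h2 : ∀ i ∈ s, ∀ j ∈ s, i ≠ j → ∀ D, P i D → ¬ P j D) (X : ℕ) :
    ∑ i ∈ s, shr C (P i) X ≤ shr C Q X := by
  unfold shr
  rw [← Finset.sum_div]
  refine div_le_div_of_nonneg_right ?_ (Nat.cast_nonneg _)
  have h3 : (⋃ i ∈ s, {D ∈ C X | P i D}).ncard = ∑ i ∈ s, {D ∈ C X | P i D}.ncard := by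
    induction s using Finset.induction_on with
    | empty => simp
    | insert a s ha ih =>
      have f1 : {D ∈ C X | P a D}.Finite := (hfin X).subset fun D hD => hD.1
      have f2 : (⋃ i ∈ s, {D ∈ C X | P i D}).Finite := (hfin X).subset fun D hD => by
        simp only [Set.mem_iUnion] at hD
        obtain ⟨i, hi, hD⟩ := hD
        exact hD.1
      rw [Finset.set_biUnion_insert, Finset.sum_insert ha, Set.ncard_union_eq ?_ f1 f2, ih]
      · exact fun i hi => h1 i (Finset.mem_insert_of_mem hi)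
      · exact fun i hi j hj => h2 i (Finset.mem_insert_of_mem hi) j (Finset.mem_insert_of_mem hj)
      · rw [Set.disjoint_left]
        rintro D hD hD'
        simp only [Set.mem_iUnion] at hD'
        obtain ⟨i, hi, hD'⟩ := hD'
        exact h2 a (Finset.mem_insert_self _ _) i (Finset.mem_insert_of_mem hi)
          (fun h => ha (h ▸ hi)) D hD.2 hD'.2
  rw [← Nat.cast_sum, ← h3]
  norm_cast
  refine Set.ncard_le_ncard ?_ ((hfin X).subset fun D hD => hD.1)
  intro D hD
  simp only [Set.mem_iUnion] at hD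
  obtain ⟨i, hi, hD⟩ := hD
  exact ⟨hD.1, h1 i hi D hD.2⟩

lemma shr_le_one (hfin : ∀ X, (C X).Finite) (P : α → Prop) (X : ℕ) : shr C P X ≤ 1 := by
  unfold shr
  refine div_le_one_of_le₀ ?_ (Nat.cast_nonneg _)
  norm_cast
  exact Set.ncard_le_ncard (fun D hD => hD.1) (hfin X)

/-- the lower bound for the set `T` -/
lemma lower (hfin : ∀ X, (C X).Finite) (hsum : HasSum p 1)
    (h : ∀ r : Fin m → ℕ, Tendsto (shr C fun D => f D = r) atTop (𝓝 (∏ i, p (r i))))
    (T : Finset (Fin m)) {w : ℝ} (hw : w < p 0 ^ T.card * (1 - p 0) ^ (m - T.card)) :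
    ∀ᶠ X in atTop, w < shr C (fun D => ∀ i, f D i = 0 ↔ i ∈ T) X := by
  have h1 : Tendsto (fun N : ℕ => ∑ r ∈ Finset.Icc 1 N, p r) atTop (𝓝 (1 - p 0)) := by
    have h2 := hsum.tendsto_sum_nat
    have h3 : Tendsto (fun N : ℕ => ∑ r ∈ Finset.range (N + 1), p r - p 0) atTop (𝓝 (1 - p 0)) :=
      ((tendsto_add_atTop_iff_nat 1).2 h2).sub_const _
    refine h3.congr fun N => ?_
    rw [Finset.sum_range_succ', add_sub_cancel_right]
    refine Finset.sum_bij (fun i _ => i + 1) ?_ ?_ ?_ ?_
    · intro i hi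
      rw [Finset.mem_range] at hi
      rw [Finset.mem_Icc]
      omega
    · intro i _ j _ hij
      omega
    · intro b hb
      rw [Finset.mem_Icc] at hb
      exact ⟨b - 1, by rw [Finset.mem_range]; omega, by omega⟩
    · intro i _
      rfl
  set t : ℕ → Fin m → Finset ℕ := fun N i => if i ∈ T then {0} else Finset.Icc 1 N with ht
  have h2 : ∀ N, ∑ r ∈ Fintype.piFinset (t N), ∏ i, p (r i) =
      p 0 ^ T.card * (∑ r ∈ Finset.Icc 1 N, p r) ^ (m - T.card) := by
    intro N
    rw [← Finset.prod_univ_sum (t N) (fun _ j => p j)]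
    have h3 : ∀ i, ∑ j ∈ t N i, p j = if i ∈ T then p 0 else ∑ r ∈ Finset.Icc 1 N, p r := by
      intro i
      rw [ht]
      dsimp only
      split_ifs
      · rw [Finset.sum_singleton]
      · rfl
    rw [Finset.prod_congr rfl fun i _ => h3 i, Finset.prod_ite, Finset.prod_const,
      Finset.prod_const]
    congr 2
    · congr 1
      ext i
      simp
    · have h4 : Finset.univ.filter (fun i => i ∉ T) = Tᶜ := by
        ext i
        simp
      rw [h4, Finset.card_compl, Fintype.card_fin]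
  have h5 : Tendsto (fun N : ℕ => p 0 ^ T.card * (∑ r ∈ Finset.Icc 1 N, p r) ^ (m - T.card)) atTop
      (𝓝 (p 0 ^ T.card * (1 - p 0) ^ (m - T.card))) := (h1.pow _).const_mul _
  obtain ⟨N, hN⟩ := ((tendsto_order.1 h5).1 w hw).exists
  rw [← h2 N] at hN
  have h6 : Tendsto (fun X => ∑ r ∈ Fintype.piFinset (t N), shr C (fun D => f D = r) X) atTop
      (𝓝 (∑ r ∈ Fintype.piFinset (t N), ∏ i, p (r i))) := tendsto_finsetSum _ fun r _ => h r
  filter_upwards [(tendsto_order.1 h6).1 w hN] with X hX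
  refine hX.trans_le (shr_sum hfin _ (fun r D => f D = r) _ ?_ ?_ X)
  · rintro r hr D rfl i
    rw [Fintype.mem_piFinset] at hr
    have h7 := hr i
    rw [ht] at h7
    dsimp only at h7
    split_ifs at h7 with h8
    · exact ⟨fun _ => h8, fun _ => Finset.mem_singleton.1 h7⟩
    · rw [Finset.mem_Icc] at h7
      exact ⟨fun h9 => by omega, fun h9 => absurd h9 h8⟩
  · rintro r _ r' _ hne D rfl h9
    exact hne h9

/-- **the law of the set of the indices with the value zero** -/
theorem exact_law (hfin : ∀ X, (C X).Finite) (hsum : HasSum p 1)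
    (h : ∀ r : Fin m → ℕ, Tendsto (shr C fun D => f D = r) atTop (𝓝 (∏ i, p (r i))))
    (T : Finset (Fin m)) :
    Tendsto (shr C fun D => ∀ i, f D i = 0 ↔ i ∈ T) atTop
      (𝓝 (p 0 ^ T.card * (1 - p 0) ^ (m - T.card))) := by
  have hone : ∑ T' : Finset (Fin m), p 0 ^ T'.card * (1 - p 0) ^ (m - T'.card) = 1 := by
    have h1 := Finset.sum_pow_mul_eq_add_pow (p 0) (1 - p 0) (Finset.univ : Finset (Fin m))
    rw [Finset.powerset_univ, Finset.card_univ, Fintype.card_fin, add_sub_cancel, one_pow] at h1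
    exact h1
  have hsplit : ∀ X, ∑ T' : Finset (Fin m), shr C (fun D => ∀ i, f D i = 0 ↔ i ∈ T') X ≤ 1 := by
    intro X
    refine (shr_sum hfin Finset.univ (fun T' D => ∀ i, f D i = 0 ↔ i ∈ T') (fun _ => True)
      (fun _ _ _ _ => trivial) ?_ X).trans (shr_le_one hfin _ X)
    intro T1 _ T2 _ hne D h1 h2
    apply hne
    ext i
    rw [← h1 i, h2 i]
  refine tendsto_order.2 ⟨fun w hw => lower hfin hsum h T hw, fun w hw => ?_⟩
  -- the upper bound from the lower bounds for the other sets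
  set q : Finset (Fin m) → ℝ := fun T' => p 0 ^ T'.card * (1 - p 0) ^ (m - T'.card) with hq
  set δ : ℝ := (w - q T) / (2 ^ m) with hδ
  have hδ0 : 0 < δ := div_pos (sub_pos.2 hw) (by positivity)
  have h1 : ∀ᶠ X in atTop, ∀ T' : Finset (Fin m),
      q T' - δ < shr C (fun D => ∀ i, f D i = 0 ↔ i ∈ T') X :=
    eventually_all.2 fun T' => lower hfin hsum h T' (by linarith)
  filter_upwards [h1] with X hX
  have h2 := hsplit X
  rw [← Finset.add_sum_erase Finset.univ _ (Finset.mem_univ T)] at h2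
  have h3 : ∑ T' ∈ Finset.univ.erase T, (q T' - δ) ≤
      ∑ T' ∈ Finset.univ.erase T, shr C (fun D => ∀ i, f D i = 0 ↔ i ∈ T') X :=
    Finset.sum_le_sum fun T' _ => (hX T').le
  have h4 : ∑ T' ∈ Finset.univ.erase T, (q T' - δ) = (1 - q T) - ((2 : ℝ) ^ m - 1) * δ := by
    rw [Finset.sum_sub_distrib, Finset.sum_const, Finset.card_erase_of_mem (Finset.mem_univ T),
      Finset.card_univ, Fintype.card_finset, Fintype.card_fin, nsmul_eq_mul]
    have h5 := hone
    rw [← Finset.add_sum_erase Finset.univ _ (Finset.mem_univ T)] at h5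
    have h6 : ∑ T' ∈ Finset.univ.erase T, q T' = 1 - q T := by
      rw [← h5]
      ring
    rw [h6]
    congr 1
    push_cast [Nat.one_le_two_pow]
    ring
  have h7 : (2 : ℝ) ^ m * δ = w - q T := by
    rw [hδ]
    field_simp
  rw [h4] at h3
  linarith

end Pool.Agent.H508.W
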