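import Pool.Agent.H508.W.Law
import Pool.Agent.H462.JL.Res

/-!
# The `3`-part of the formula for the cube-free elements of `𝓞 K`
-/

set_option autoImplicit false
set_option linter.unusedSectionVars false
set_option linter.unusedVariables false

open scoped Classical

namespace Pool.Agent.H508.W

open NumberField IsDedekindDomain
open Pool.Agent.Y692.QS (Ei w nr toC)
open Pool.Agent.Y703.CT
open Pool.Agent.Y696.CTK
open Pool.Agent.TH841.NF.D (Sha)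
open Pool.Agent.H462.CTU.LK (Dk)
open Pool.Agent.H462.CTU.Law.Cou
open Pool.Agent.H462.JL (Cf3 CfK CfK_iff exists_rep Lv lp le' dt_lp un_dk pD_pe pe bad badK badK_iff
  CorG CorKG corG_iff cor_exists cor_unique)
open Pool.Agent.H428.TP (quo)

/-- the factorization of a cube-free element prime to three which is not a unit -/
lemma exists_dk3 {z : Ei} (hz : Cf3 z) (hu : ¬ IsUnit z) :
    ∃ (k : ZMod 3) (J : Type) (_ : Fintype J) (_ : Nonempty J) (π : J → Ei) (e : J → ZMod 3),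
      Dt π e ∧ Dk k π e z := by
  obtain ⟨p, T, g, h1, -, h3⟩ := exists_rep hz
  refine ⟨p.2, Lv T g, inferInstance, ?_, lp T g, le' T g, dt_lp (fun ρ hρ => (h1 ρ hρ).1) g,
    un_dk (b := p.1) (by rw [pD_pe]; exact h3)⟩
  by_contra hne
  rw [not_nonempty_iff] at hne
  apply hu
  rw [h3, ← pD_pe]
  unfold pD
  rw [Fintype.prod_empty, mul_one]
  exact un_isUnit _

section
variable {K : Type} [Field K] [NumberField K] [IsCyclotomicExtension {3} ℚ K]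

/-- the corank exists and is unique -/
theorem ex_cor {B : 𝓞 K} (hB : CfK B) (hu : ¬ IsUnit B) : ∃! r, CorKG B r := by
  obtain ⟨⟨j, hj⟩, -⟩ := Pool.Agent.Y455.CTK.jex K
  obtain ⟨z, rfl⟩ := j.surjective B
  have hz : Cf3 z := (CfK_iff j hj z).1 hB
  have hu' : ¬ IsUnit z := fun h => hu (h.map j)
  obtain ⟨k, J, _, hJ, π, e, hdt, hDk⟩ := exists_dk3 hz hu'
  obtain ⟨r, hr⟩ := cor_exists hdt hDk hJ
  exact ⟨r, (corG_iff j hj z r).2 hr, fun s hs => cor_unique ((corG_iff j hj z s).1 hs) hr⟩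

/-- **the law for one cube-free element of `𝓞 K`** -/
theorem all_K {B : 𝓞 K} (hu : ¬ IsUnit B) (hb : ¬ badK B) {r : ℕ} (hr : CorKG B r) :
    Module.finrank ℤ (ED (B : K)).toAffine.Point ≤ 2 * r ∧
    Finite (AddCommGroup.torsion (ED (B : K)).toAffine.Point) ∧
    padicValNat 3 (Nat.card (AddCommGroup.torsion (ED (B : K)).toAffine.Point)) = 1 ∧
    ((Finite (ED (B : K)).toAffine.Point ∧
      ∀ (n : ℕ) (x : Sha (ED (B : K))), 3 ^ n • x = 0 → x = 0) ↔ r = 0) ∧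
    ∃ (Lf : ℂ → ℂ) (c : HeightOneSpectrum (𝓞 K) → ℕ) (q : ℚ),
      (Differentiable ℂ Lf ∧
      ∀ s : ℂ, 3 / 2 < s.re →
        LSeriesSummable ((fun n : ℤ => (n : ℂ)) ∘ (ED (B : K)).LFunction) s ∧
          Lf s = (ED (B : K)).LSeries s) ∧
      IsTam (ED (B : K)) c ∧
      (∀ v, B ∈ v.asIdeal → c v = 3) ∧ (∀ v, B ∉ v.asIdeal → ¬ 3 ∣ c v) ∧
      (∀ σ : K →+* ℂ, (∃ Λ : PeriodPair, Λ.g₂ = 0 ∧ Λ.g₃ = -(σ (B : K)) ^ 2) ∧
        ∀ Λ : PeriodPair, Λ.g₂ = 0 → Λ.g₃ = -(σ (B : K)) ^ 2 →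
          quo (ED (B : K)) Lf c Λ = q) ∧
      0 ≤ q ∧ 0 ≤ padicValRat 3 q ∧ ((q ≠ 0 ∧ padicValRat 3 q = 0) ↔ r = 0) := by
  obtain ⟨⟨j, hj⟩, hdisc⟩ := Pool.Agent.Y455.CTK.jex K
  obtain ⟨z, rfl⟩ := j.surjective B
  have hu' : ¬ IsUnit z := fun h => hu (h.map j)
  have hb' : ¬ bad z := fun h => hb ((badK_iff j hj z).2 h)
  have hr' : CorG z r := (corG_iff j hj z r).1 hr
  obtain ⟨-, h0, -, -⟩ := Pool.Agent.H462.JL.oneG (K := K) j hb' hu' hr'
  obtain ⟨h1, h2, h3, Lf, c, q, h4, h5, h6, h7, h8, h9, h10, h11, h12⟩ :=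
    one_all (K := K) j hdisc hb' hu' hr'
  exact ⟨h0, h1, h2, h3, Lf, c, q, ⟨h4, h5⟩, h6, h7, h8, h12, h9, h10, h11⟩

end

end Pool.Agent.H508.W
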