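import Pool.Agent.H508.W.Tam
import Pool.Agent.H462.JL.Ari

/-!
# The `3`-part of the formula for `y² + D y = x³` over `ℚ(ω)`, `D = ± ω^k ∏ π_i ^ e_i`

Adapted from `Pool.Agent.H428.TP.Law`, `Tri`, `Rat` (the case `e_i = 1`).
-/

set_option autoImplicit false
set_option linter.unusedSectionVars false
set_option linter.unusedVariables false

open scoped Classical

namespace Pool.Agent.H508.W

open NumberField IsDedekindDomain WeierstrassCurve WithZero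
open Pool.Agent.Y692.QS (Ei w nr toC)
open Pool.Agent.Y703.CT
open Pool.Agent.Y715.T.Rec (cs)
open Pool.Agent.Y696 (NonsingRed Cur)
open Pool.Agent.Y696.CTK
open Pool.Agent.Y715.T.Three (lam_ne sq_three)
open Pool.Agent.TH841.NF.D (Sha)
open Pool.Agent.XL6 (KerV)
open Pool.Agent.H462.CTU.Chr (nq)
open Pool.Agent.H462.CTU.LK (Dk)
open Pool.Agent.H462.CTU.Val (IsHLk)
open Pool.Agent.H462.CTU.Main (KerW)
open Pool.Agent.H462.CTU.Sel (KW KerC)
open Pool.Agent.H428.TP (per quo val_w per_unif pdet_per v_rat selc)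

/-! ### the kernels -/

section ker
variable {J : Type} [Fintype J] [Nonempty J] {π : J → Ei} {e : J → ZMod 3} {k : ZMod 3}

lemma kerV_card (h : Ker π e) : (KerV π e).ncard = 3 := by
  have hcc : Set.range (fun (c : ZMod 3) (_ : J) => c) = KerV π e := by
    ext v
    constructor
    · rintro ⟨c, rfl⟩ j
      simp
    · intro hv
      obtain ⟨j0⟩ := (inferInstance : Nonempty J)
      exact ⟨v j0, funext fun i => h v hv j0 i⟩
  obtain ⟨j0⟩ := (inferInstance : Nonempty J)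
  rw [← hcc, Set.ncard_range_of_injective, Nat.card_zmod]
  intro c c' h
  exact congrFun h j0

lemma kerW_card (h : KerC k π e) : (KW k π e).ncard = 3 := by
  have hcc : Set.range (fun (c : ZMod 3) (_ : Option J) => c) = KW k π e := by
    ext v
    constructor
    · rintro ⟨c, rfl⟩ j
      simp
    · intro hv
      refine ⟨v none, funext fun o => ?_⟩
      cases o with
      | none => rfl
      | some i => exact (h v hv i).symm
  rw [← hcc, Set.ncard_range_of_injective, Nat.card_zmod]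
  intro c c' h
  exact congrFun h none

lemma kerC_iff (hD : Dt π e) : KerC k π e ↔ KerW k π e := by
  refine ⟨Pool.Agent.H462.CTU.Crit.kerC_W Pool.Agent.Y350.CT.rec hD, fun hK v hv i => ?_⟩
  refine hK v (fun j => ?_) i
  have h1 := hv j
  have h2 : ∑ i, e i * cs (π i) (π j) * (v (some j) - v (some i)) =
      -∑ i, e i * cs (π j) (π i) * (v (some i) - v (some j)) := by
    rw [← Finset.sum_neg_distrib]
    refine Finset.sum_congr rfl fun i _ => ?_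
    by_cases hij : i = j
    · rw [hij, sub_self, mul_zero, neg_zero]
    · rw [Pool.Agent.Y350.CT.rec (π i) (π j) (hD.pq i) (hD.pq j) (hD.nd i j hij)]
      ring
  rw [h2]
  linear_combination -h1

/-- the kernel of the system is as small as possible -/
def Sm (k : ZMod 3) (π : J → Ei) (e : J → ZMod 3) : Prop :=
  (k = 0 → Ker π e) ∧ (k ≠ 0 → KerC k π e)

lemma sm_iff {r : ℕ} (hG : (KW k π e).ncard = 3 ^ (r + 1 + Pool.Agent.H462.JL.kz k)) :
    Sm k π e ↔ r = 0 := by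
  by_cases hk : k = 0
  · subst hk
    have hG' : (KerV π e).ncard = 3 ^ (r + 1) := by
      have h1 : Pool.Agent.H462.JL.kz 0 = 1 := rfl
      rw [Pool.Agent.H462.JL.KW_zero, h1, pow_succ 3 (r + 1)] at hG
      omega
    constructor
    · intro h
      have h1 := kerV_card (h.1 rfl)
      rw [hG'] at h1
      by_contra h0
      have h2 : 3 ^ 2 ≤ 3 ^ (r + 1) := Nat.pow_le_pow_right (by norm_num) (by omega)
      omega
    · intro h0
      exact ⟨fun _ => Pool.Agent.H462.JL.ker_of (by rw [hG', h0]; norm_num), fun h => absurd rfl h⟩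
  · have hKW : (KW k π e).ncard = 3 ^ (r + 1) := by
      have h1 : Pool.Agent.H462.JL.kz k = 0 := if_neg hk
      rw [hG, h1, add_zero]
    constructor
    · intro h
      have h1 := kerW_card (h.2 hk)
      rw [hKW] at h1
      by_contra h0
      have h2 : 3 ^ 2 ≤ 3 ^ (r + 1) := Nat.pow_le_pow_right (by norm_num) (by omega)
      omega
    · intro h0
      exact ⟨fun h => absurd h hk, fun _ => Pool.Agent.H462.JL.kerC_of (by rw [hKW, h0]; norm_num)⟩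

end ker

/-! ### the value -/

section val
variable {J : Type} [Fintype J] [Nonempty J] {π : J → Ei} {e : J → ZMod 3} {k : ZMod 3}

theorem val_all (hD : Dt π e)
    (h9 : k = 0 → ¬ (9 : ℤ) ∣ nr (pD π e) - 1) :
    ∃ F : ℂ → ℂ, IsHLk k π (fun j => -e j) F ∧
      ∀ (Γ : Type) [LinearOrderedCommGroupWithZero Γ] (v : Valuation ℂ Γ), v 3 < 1 →
        ∀ (L : PeriodPair) (Ω : ℂ), Cur L Ω → ∃ g : Γ, g ≤ 1 ∧ (Sm k π e → g = 1) ∧
          (¬ Sm k π e → g < 1) ∧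
          v (F 1 * (starRingEnd ℂ) (F 1) / (Ω * (starRingEnd ℂ) Ω)) *
            (v Pool.Agent.Y715.T.Three.lam * v Pool.Agent.Y715.T.Three.lam) =
            (v Pool.Agent.Y715.T.Three.lam * v Pool.Agent.Y715.T.Three.lam) ^
              (Fintype.card J - 1) * g := by
  by_cases hk : k = 0
  · obtain ⟨F, hF, hval⟩ := val_sq hD (h9 hk)
    have hSm : Sm k π e ↔ Ker π e := by
      unfold Sm
      exact ⟨fun h => h.1 hk, fun h => ⟨fun _ => h, fun h0 => absurd hk h0⟩⟩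
    refine ⟨F, ?_, ?_⟩
    · subst hk
      refine ⟨hF.1, fun s hs => (hF.2 s hs).congr_fun fun α => ?_⟩
      rw [zero_mul, neg_zero, ZMod.val_zero, pow_zero, one_mul]
    · intro Γ _ v hv L Ω hC
      obtain ⟨g, h1, h2, h3, h4⟩ := hval Γ v hv L Ω hC
      exact ⟨g, h1, fun h => h2 (hSm.1 h), fun h => h3 fun h' => h (hSm.2 h'), h4⟩
  · obtain ⟨F, hF, hval⟩ := val_w (e := e) hk hD
    have hSm : Sm k π e ↔ KerW k π e := by
      rw [← kerC_iff hD]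
      unfold Sm
      exact ⟨fun h => h.2 hk, fun h => ⟨fun h0 => absurd h0 hk, fun _ => h⟩⟩
    refine ⟨F, hF, ?_⟩
    intro Γ _ v hv L Ω hC
    obtain ⟨g, h1, h2, h3, h4⟩ := hval Γ v hv L Ω hC
    exact ⟨g, h1, fun h => h2 (hSm.1 h), fun h => h3 fun h' => h (hSm.2 h'), h4⟩

end val

section
variable {K : Type} [Field K] [NumberField K] (j : Ei ≃+* 𝓞 K)
variable {J : Type} [Fintype J] [Nonempty J] {π : J → Ei} {e : J → ZMod 3} {k : ZMod 3} {D : Ei}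

lemma v_embD {Γ : Type} [LinearOrderedCommGroupWithZero Γ] {v : Valuation ℂ Γ} (hv : v 3 < 1)
    (τ : Ei →+* ℂ) (hD : Dt π e) (hDk : Dk k π e D) : v (τ D) = 1 := by
  have hw : v (τ w) = 1 := by
    refine Pool.Agent.Y715.T.Cg.z_pow (k := 3) (by norm_num) ?_
    rw [← map_pow]
    have : (w : Ei) ^ 3 = 1 := by decide
    rw [this, map_one]
  have h1 := v_emb_unit v hv τ (three_dvd hD)
  rcases hDk with h | h
  · rw [h, map_mul, map_pow, map_mul, map_pow, hw, one_pow, one_mul, h1]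
  · rw [h, map_neg, Valuation.map_neg, map_mul, map_pow, map_mul, map_pow, hw, one_pow, one_mul, h1]

/-- the law for one `D` -/
theorem law_gen (hdisc : discr K = -3) (hD : Dt π e) (hDk : Dk k π e D)
    (h9 : k = 0 → ¬ (9 : ℤ) ∣ nr (pD π e) - 1) :
    Finite (AddCommGroup.torsion (ED (j D : K)).toAffine.Point) ∧
    padicValNat 3 (Nat.card (AddCommGroup.torsion (ED (j D : K)).toAffine.Point)) = 1 ∧
    ∃ (Lf : ℂ → ℂ) (c : HeightOneSpectrum (𝓞 K) → ℕ),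
      Differentiable ℂ Lf ∧
      (∀ s : ℂ, 3 / 2 < s.re →
        LSeriesSummable ((fun n : ℤ => (n : ℂ)) ∘ (ED (j D : K)).LFunction) s ∧
          Lf s = (ED (j D : K)).LSeries s) ∧
      IsTam (ED (j D : K)) c ∧
      (∀ v, j D ∈ v.asIdeal → c v = 3) ∧ (∀ v, j D ∉ v.asIdeal → ¬ 3 ∣ c v) ∧
      ∀ σ : K →+* ℂ, (∃ Λ : PeriodPair, Λ.g₂ = 0 ∧ Λ.g₃ = -(σ (j D)) ^ 2) ∧
        ∀ Λ : PeriodPair, Λ.g₂ = 0 → Λ.g₃ = -(σ (j D)) ^ 2 →
          ∀ (Γ : Type) [LinearOrderedCommGroupWithZero Γ] (v : Valuation ℂ Γ), v 3 < 1 →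
            v (quo (ED (j D : K)) Lf c Λ) ≤ 1 ∧
              (v (quo (ED (j D : K)) Lf c Λ) = 1 ↔ Sm k π e) := by
  have hne : D ≠ 0 := hDk.ne hD
  obtain ⟨e', i₀, hi, u₀, a, Ψ, g₀, hdata⟩ := parts.trf K j _ hne
  have ha : ∃ σ, a σ ≠ 0 := by
    by_cases hk : k = 0
    · subst hk
      obtain ⟨u', hT'⟩ := Pool.Agent.H462.CTU.Crit0.tw_neg hDk hdata.1
      exact Pool.Agent.Y703.CT.a_ne hD hT'
    · exact Pool.Agent.H462.CTU.Crit.a_ne hD hDk hdata.1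
  obtain ⟨ht1, ht2⟩ := parts.tor K j _ hne e' i₀ hi u₀ a Ψ g₀ hdata ha
  obtain ⟨F, hF, hval⟩ := val_all hD h9
  obtain ⟨c, hc, hc1, hc2, m, hm3, hm⟩ := tam_gen j hD hDk h9
  set N := Nat.card (AddCommGroup.torsion (ED (j D : K)).toAffine.Point) with hN
  have hN0 : N ≠ 0 := by
    intro h
    rw [h] at ht2
    simp at ht2
  obtain ⟨n', hn'⟩ : 3 ∣ N := by
    have := pow_padicValNat_dvd (p := 3) (n := N)
    rwa [ht2, pow_one] at this
  have hp3 : Fact (Nat.Prime 3) := ⟨Nat.prime_three⟩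
  have hn3 : ¬ 3 ∣ n' := by
    rintro ⟨t, rfl⟩
    have h2 : 3 ^ 2 ∣ N := ⟨t, by rw [hn']; ring⟩
    have := (padicValNat_dvd_iff_le hN0).1 h2
    omega
  have hm0 : m ≠ 0 := by
    rintro rfl
    exact hm3 (dvd_zero 3)
  refine ⟨ht1, ht2, fun s => F s * (starRingEnd ℂ) (F ((starRingEnd ℂ) s)), c, diff_conj hF.1,
    fun s hs => Pool.Agent.H462.CTU.LK.LK Pool.Agent.Y350.CT.rec j hD hDk hF hs, hc, hc1, hc2,
    fun σ => ?_⟩
  set τ : Ei →+* ℂ := σ.comp ((algebraMap (𝓞 K) K).comp (j : Ei →+* 𝓞 K)) with hτ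
  have hτa : ∀ z, τ z = σ (j z : K) := fun z => rfl
  set d : ℂ := σ (j D : K) with hd
  have hd0 : d ≠ 0 := by
    rw [hd, ← hτa]
    intro h
    apply hne
    apply j.injective
    rw [map_zero]
    have h1 : ((j D : 𝓞 K) : K) = 0 := (map_eq_zero σ).1 h
    exact_mod_cast h1
  obtain ⟨u, hu⟩ := IsAlgClosed.exists_pow_nat_eq d (n := 3) (by norm_num)
  obtain ⟨hex, hall⟩ := PER d u hd0 hu
  refine ⟨hex, fun Λ k2 k3 => ?_⟩
  obtain ⟨L, Ω, hC, hA⟩ := hall Λ k2 k3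
  have hΩ : Ω ≠ 0 := hC.lat.ne
  have hu0 : u ≠ 0 := by
    rintro rfl
    apply hd0
    rw [← hu]
    ring
  have hΩc : (starRingEnd ℂ) Ω ≠ 0 := (map_ne_zero _).2 hΩ
  have huc : (starRingEnd ℂ) u ≠ 0 := (map_ne_zero _).2 hu0
  have hNC : (N : ℂ) ≠ 0 := by exact_mod_cast hN0
  have hmC : (m : ℂ) ≠ 0 := by exact_mod_cast hm0
  have hs3 : ((Real.sqrt 3 : ℝ) : ℂ) ≠ 0 := by
    rw [Ne, Complex.ofReal_eq_zero]
    positivity
  have hA' : ((per Λ : ℝ) : ℂ) =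
      ((Real.sqrt 3 : ℝ) : ℂ) * (Ω * (starRingEnd ℂ) Ω) / (u * (starRingEnd ℂ) u) := by
    unfold per
    rw [hA, Complex.mul_conj, Complex.mul_conj, Complex.normSq_eq_norm_sq,
      Complex.normSq_eq_norm_sq]
    push_cast
    ring
  have hdis : ((Real.sqrt |(discr K : ℝ)| : ℝ) : ℂ) = ((Real.sqrt 3 : ℝ) : ℂ) := by
    rw [hdisc]
    norm_num
  have hq : quo (ED (j D : K)) (fun s => F s * (starRingEnd ℂ) (F ((starRingEnd ℂ) s))) c Λ =
      F 1 * (starRingEnd ℂ) (F 1) / (Ω * (starRingEnd ℂ) Ω) * (u * (starRingEnd ℂ) u) *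
        (N : ℂ) ^ 2 / (3 ^ Fintype.card J * m) := by
    unfold quo
    rw [hA', hdis, hm, ← hN]
    push_cast
    rw [map_one]
    field_simp
  intro Γ _ v hv
  rw [hq]
  obtain ⟨g, hg1, hg2, hg3, hg⟩ := hval Γ v hv L Ω hC
  have hvm := v_natp hv hm3
  have hvN : v (N : ℂ) = v 3 := by
    rw [hn']
    push_cast
    rw [map_mul, v_natp hv hn3, mul_one]
  have hvu : v u = 1 := by
    apply v_cube
    rw [hu, hd, ← hτa]
    exact v_embD hv τ hD hDk
  have hvu' : v ((starRingEnd ℂ) u) = 1 := by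
    apply v_cube
    rw [← map_pow, hu, hd, ← hτa]
    exact v_embD hv ((starRingEnd ℂ).comp τ) hD hDk
  have hl : v Pool.Agent.Y715.T.Three.lam ≠ 0 := lam_ne
  obtain ⟨n, hn⟩ : ∃ n, Fintype.card J = n + 1 := ⟨Fintype.card J - 1, by
    have := Fintype.card_pos (α := J)
    omega⟩
  have hv3 : v 3 ≠ 0 := by
    rw [← sq_three]
    exact mul_ne_zero hl hl
  have key : v (F 1 * (starRingEnd ℂ) (F 1) / (Ω * (starRingEnd ℂ) Ω) *
      (u * (starRingEnd ℂ) u) * (N : ℂ) ^ 2 / (3 ^ Fintype.card J * m)) = g := by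
    rw [sq_three, hn, Nat.add_sub_cancel] at hg
    rw [hn, map_div₀, map_mul, map_mul, map_mul v u, map_mul v (3 ^ (n + 1)), map_pow, map_pow,
      hvN, hvu, hvu', hvm, mul_one, mul_one, mul_one]
    rw [div_eq_iff (pow_ne_zero _ hv3)]
    calc _ = (v (F 1 * (starRingEnd ℂ) (F 1) / (Ω * (starRingEnd ℂ) Ω)) * v 3) * v 3 := by
          rw [pow_two, mul_assoc]
      _ = v 3 ^ n * g * v 3 := by rw [hg]
      _ = _ := by rw [pow_succ]; ac_rfl
  rw [key]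
  refine ⟨hg1, ?_, hg2⟩
  intro h
  by_contra hk
  exact absurd h (hg3 hk).ne

/-- the arithmetic side -/
theorem tri_all (hD : Dt π e) (hDk : Dk k π e D)
    (h9 : k = 0 → ¬ (9 : ℤ) ∣ nr (pD π e) - 1) :
    (Finite (ED (j D : K)).toAffine.Point ∧
      ∀ (n : ℕ) (x : Sha (ED (j D : K))), 3 ^ n • x = 0 → x = 0) ↔ Sm k π e := by
  have hne : D ≠ 0 := hDk.ne hD
  constructor
  · rintro ⟨h1, h2⟩
    obtain ⟨e', i₀, hi, u, a, Ψ, g, hdata⟩ := parts.trf K j _ hne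
    have hT := hdata.1
    by_cases hk : k = 0
    · subst hk
      obtain ⟨u', hT'⟩ := Pool.Agent.H462.CTU.Crit0.tw_neg hDk hT
      have ha := Pool.Agent.Y703.CT.a_ne hD hT'
      have hM := parts.mwc K j _ hne e' i₀ hi u a Ψ g hdata ha h1
      have hS := parts.shc parts.plc K j _ hne e' i₀ hi u a Ψ g hdata h2
      have hsel := Pool.Agent.H70CT.t_SHC _ hne i₀ hi u a hT ha hS hM
      refine ⟨fun _ => ?_, fun h => absurd rfl h⟩
      by_contra hker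
      exact Pool.Agent.Y363.CT.SELC.t_SELC Pool.Agent.Y319.CT.t_FF Pool.Agent.Y379.CT.t_CUB
        Pool.Agent.Y100.CT.CUB3.t_cub3 Pool.Agent.Y674.CT.t_PT Pool.Agent.Y379.CT.t_RAMC J π _ hD
        hker (h9 rfl) i₀ hi u' a hT' hsel
    · have ha := Pool.Agent.H462.CTU.Crit.a_ne hD hDk hT
      have hM := parts.mwc K j _ hne e' i₀ hi u a Ψ g hdata ha h1
      have hS := parts.shc parts.plc K j _ hne e' i₀ hi u a Ψ g hdata h2
      have hsel := Pool.Agent.H70CT.t_SHC _ hne i₀ hi u a hT ha hS hM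
      refine ⟨fun h => absurd h hk, fun _ => ?_⟩
      by_contra hker
      exact selc hk hD hDk hker hT hsel
  · rintro ⟨h1, h2⟩
    by_cases hk : k = 0
    · subst hk
      obtain ⟨a1, -, a3⟩ := Pool.Agent.H462.CTU.Crit0.ari (K := K) j hD hDk (h9 rfl) (h1 rfl)
      exact ⟨a1, a3⟩
    · obtain ⟨a1, -, a3⟩ := Pool.Agent.H462.CTU.Crit.ari (K := K) j hk hD hDk (h2 hk)
      exact ⟨a1, a3⟩

/-! ### the quotient is rational -/

/-- the central value is a nonnegative real number -/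
lemma l_nonneg (hdt : Dt π e) (hD : Dk k π e D) {Φ : ℂ → ℂ}
    (hΦ : Differentiable ℂ Φ) (hL : ∀ s : ℂ, 3 / 2 < s.re → Φ s = (ED (j D : K)).LSeries s) :
    ∃ t : ℝ, 0 ≤ t ∧ Φ 1 = t := by
  obtain ⟨-, F, hF, -⟩ := Pool.Agent.H508.Y.act_val
    (⟨hdt.pq, hdt.nd, fun j => neg_ne_zero.2 (hdt.e0 j)⟩ : Dt π (fun i => -e i)) k
  have hΦF : Φ = fun s => F s * (starRingEnd ℂ) (F ((starRingEnd ℂ) s)) :=
    Pool.Agent.H508.Y.ent_eq hΦ (Pool.Agent.Y696.CTK.diff_conj hF.1) fun s hs => by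
      rw [hL s hs]
      exact ((Pool.Agent.H462.CTU.LK.LK Pool.Agent.Y350.CT.rec j hdt hD hF hs).2).symm
  refine ⟨Complex.normSq (F 1), Complex.normSq_nonneg _, ?_⟩
  rw [hΦF]
  show F 1 * (starRingEnd ℂ) (F ((starRingEnd ℂ) 1)) = _
  rw [map_one, Complex.mul_conj]

/-- **The quotient is a rational number**, the same for all the embeddings and all the bases. -/
theorem quo_rat (hdisc : discr K = -3) (hdt : Dt π e) (hD : Dk k π e D)
    {Φ : ℂ → ℂ} (hΦ : Differentiable ℂ Φ)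
    (hL : ∀ s : ℂ, 3 / 2 < s.re → Φ s = (ED (j D : K)).LSeries s)
    (c : HeightOneSpectrum (𝓞 K) → ℕ) : ∃ q : ℚ, 0 ≤ q ∧
      ∀ (σ : K →+* ℂ) (Λ : PeriodPair), Λ.g₂ = 0 → Λ.g₃ = -(σ (j D)) ^ 2 →
        quo (ED (j D : K)) Φ c Λ = q := by
  have hne : D ≠ 0 := hD.ne hdt
  obtain ⟨P, hP, hper⟩ := per_unif (K := K) j hne
  obtain ⟨t, ht, hΦ1⟩ := l_nonneg (K := K) j hdt hD hΦ hL
  obtain ⟨σ₀⟩ : Nonempty (K →+* ℂ) := inferInstance
  set d : ℂ := σ₀ (j D : K) with hd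
  have hd0 : d ≠ 0 := by
    rw [hd]
    intro h
    apply hne
    apply j.injective
    rw [map_zero]
    have h1 : ((j D : 𝓞 K) : K) = 0 := (map_eq_zero σ₀).1 h
    exact_mod_cast h1
  obtain ⟨u, hu⟩ := IsAlgClosed.exists_pow_nat_eq d (n := 3) (by norm_num)
  obtain ⟨⟨M, hM2, hM3⟩, -⟩ := PER d u hd0 hu
  -- a square root of `-3`
  obtain ⟨a, ha⟩ : ∃ a : K, a ^ 2 = -3 := by
    refine ⟨((j (1 + 2 * w) : 𝓞 K) : K), ?_⟩
    have h1 : ((1 + 2 * w : Ei)) ^ 2 = -3 := by decide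
    have h2 : (j (1 + 2 * w)) ^ 2 = -3 := by
      rw [← map_pow, h1, map_neg, map_ofNat]
    have h3 := congrArg (algebraMap (𝓞 K) K) h2
    rw [map_pow, map_neg, map_ofNat] at h3
    exact h3
  obtain ⟨q, hq⟩ := Pool.Agent.H508.Y.period_formula j hdt hD hΦ hL σ₀ ha hM2 hM3
  have hδ : (σ₀ a) ^ 2 = -3 := by rw [← map_pow, ha, map_neg, map_ofNat]
  obtain ⟨ε, hε⟩ := pdet_per hδ M
  have hPM := hper σ₀ M hM2 hM3
  have hPC : (P : ℂ) ≠ 0 := by
    rw [Ne, Complex.ofReal_eq_zero]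
    exact hP.ne'
  have hdis : ((Real.sqrt |(discr K : ℝ)| : ℝ) : ℂ) = ((Real.sqrt 3 : ℝ) : ℂ) := by
    rw [hdisc]
    norm_num
  set N := Nat.card (AddCommGroup.torsion (ED (j D : K)).toAffine.Point) with hN
  set T : ℕ := ∏ᶠ v, c v with hT
  have hval : ∀ (σ : K →+* ℂ) (Λ : PeriodPair), Λ.g₂ = 0 → Λ.g₃ = -(σ (j D)) ^ 2 →
      quo (ED (j D : K)) Φ c Λ = ((q * ε * N ^ 2 / T : ℚ) : ℂ) := by
    intro σ Λ k2 k3
    unfold quo
    rw [hper σ Λ k2 k3, hdis, ← hN, ← hT]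
    have e1 : Φ 1 * ((Real.sqrt 3 : ℝ) : ℂ) = q * ε * P := by
      rw [hq, mul_assoc, hε, hPM]
      ring
    rw [e1]
    push_cast
    by_cases hT0 : (T : ℂ) = 0
    · rw [hT0]
      simp
    · field_simp
  refine ⟨q * ε * N ^ 2 / T, ?_, hval⟩
  have h1 := hval σ₀ M hM2 hM3
  unfold quo at h1
  rw [hPM, hdis, hΦ1, ← hN, ← hT] at h1
  have h2 : t * Real.sqrt 3 * (N : ℝ) ^ 2 / (P * (T : ℝ)) = ((q * ε * N ^ 2 / T : ℚ) : ℝ) := by
    exact_mod_cast h1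
  have h3 : 0 ≤ t * Real.sqrt 3 * (N : ℝ) ^ 2 / (P * (T : ℝ)) := by positivity
  rw [h2] at h3
  exact_mod_cast h3

end

section
variable {K : Type} [Field K] [NumberField K] (j : Ei ≃+* 𝓞 K)
open Pool.Agent.H462.JL (bad CorG cor_data)

/-- **the law for one cube-free element which is not excluded**, with the rational quotient -/
theorem one_all (hdisc : discr K = -3) {z : Ei} (hz : ¬ bad z) (hu : ¬ IsUnit z) {r : ℕ}
    (hr : CorG z r) :
    Finite (AddCommGroup.torsion (ED (j z : K)).toAffine.Point) ∧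
    padicValNat 3 (Nat.card (AddCommGroup.torsion (ED (j z : K)).toAffine.Point)) = 1 ∧
    ((Finite (ED (j z : K)).toAffine.Point ∧
      ∀ (n : ℕ) (x : Sha (ED (j z : K))), 3 ^ n • x = 0 → x = 0) ↔ r = 0) ∧
    ∃ (Lf : ℂ → ℂ) (c : HeightOneSpectrum (𝓞 K) → ℕ) (q : ℚ),
      Differentiable ℂ Lf ∧
      (∀ s : ℂ, 3 / 2 < s.re →
        LSeriesSummable ((fun n : ℤ => (n : ℂ)) ∘ (ED (j z : K)).LFunction) s ∧
          Lf s = (ED (j z : K)).LSeries s) ∧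
      IsTam (ED (j z : K)) c ∧
      (∀ v, j z ∈ v.asIdeal → c v = 3) ∧ (∀ v, j z ∉ v.asIdeal → ¬ 3 ∣ c v) ∧
      0 ≤ q ∧ 0 ≤ padicValRat 3 q ∧ ((q ≠ 0 ∧ padicValRat 3 q = 0) ↔ r = 0) ∧
      ∀ σ : K →+* ℂ, (∃ Λ : PeriodPair, Λ.g₂ = 0 ∧ Λ.g₃ = -(σ (j z)) ^ 2) ∧
        ∀ Λ : PeriodPair, Λ.g₂ = 0 → Λ.g₃ = -(σ (j z)) ^ 2 →
          quo (ED (j z : K)) Lf c Λ = q := by
  obtain ⟨k, J, _, _, π, e, hdt, hDk, hG, h9⟩ := cor_data hz hu hr
  have hsm := sm_iff hG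
  obtain ⟨h1, h2, Lf, c, h3, h4, h5, h6, h7, h8⟩ := law_gen (K := K) j hdisc hdt hDk h9
  obtain ⟨q, hq0, hq⟩ := quo_rat (K := K) j hdisc hdt hDk h3 (fun s hs => (h4 s hs).2) c
  obtain ⟨σ₀⟩ : Nonempty (K →+* ℂ) := inferInstance
  obtain ⟨⟨M, hM2, hM3⟩, h9'⟩ := h8 σ₀
  obtain ⟨V, hV⟩ := Pool.Agent.Y715.T.Fin.exists_over_three
  obtain ⟨a1, a2⟩ := h9' M hM2 hM3 _ V.valuation hV
  rw [hq σ₀ M hM2 hM3] at a1 a2
  obtain ⟨b1, b2⟩ := v_rat hV q
  exact ⟨h1, h2, (tri_all (K := K) j hdt hDk h9).trans hsm, Lf, c, q, h3, h4, h5, h6, h7, hq0,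
    b1.1 a1, b2.symm.trans (a2.trans hsm), fun σ => ⟨(h8 σ).1, fun Λ k2 k3 => hq σ Λ k2 k3⟩⟩

end

end Pool.Agent.H508.W
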