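import Pool.Agent.H508.W.Td
import Pool.Agent.H428.TP.Rat
import Pool.Agent.H462.JL.Rep

/-!
# The Tamagawa numbers of `y² + D y = x³` over `ℚ(ω)`, `D = ± ω^k ∏ π_i ^ e_i`

Adapted from `Pool.Agent.H428.TP.Tam` (the case `e_i = 1`).
-/

set_option autoImplicit false
set_option linter.unusedSectionVars false

open scoped Classical

namespace Pool.Agent.H508.W

open NumberField IsDedekindDomain WithZero WeierstrassCurve
open Pool.Agent.Y692.QS (Ei w nr)
open Pool.Agent.Y703.CT
open Pool.Agent.Y696 (NonsingRed)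
open Pool.Agent.Y696.CTK (ED IsTam)
open Pool.Agent.Y350.CTK
open Pool.Agent.Y350.CTK.Tam (te te_sq te_prime te_m pl mem_pl eq_pl pl_val val_one val_eq three_eq
  three_mem bc_ED ED_delta sub_ex idx_one idx_t res)
open Pool.Agent.H462.CTU.LK (Dk)
open Pool.Agent.H428.TP (te_dvd_three isUnit_w isUnit_wk w_sub_one w2_sub_one zk idx_pm idx_w val_unit)

section ei
variable {J : Type} [Fintype J] {π : J → Ei} {e : J → ZMod 3} {k : ZMod 3} {D : Ei}

lemma dk_unit (h : Dk k π e D) : ∃ u : Ei, IsUnit u ∧ D = u * pD π e := by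
  rcases h with h | h
  · exact ⟨_, isUnit_wk k, h⟩
  · exact ⟨-w ^ k.val, (isUnit_wk k).neg, by rw [h]; ring⟩

lemma three_dvd (hD : Dt π e) : (3 : Ei) ∣ pD π e - 1 := Pool.Agent.H462.JL.prm_pD hD

lemma te_pD (hD : Dt π e) : ¬ te ∣ pD π e := by
  intro h
  obtain ⟨m, hm⟩ := three_dvd hD
  apply te_prime.not_isUnit
  have e1 : (1 : Ei) = pD π e - 3 * m := by linear_combination -hm
  exact isUnit_of_dvd_one (by rw [e1]; exact dvd_sub h (te_dvd_three.mul_right _))

lemma te_D (hD : Dt π e) (h : Dk k π e D) : ¬ te ∣ D := by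
  obtain ⟨u, hu, h1⟩ := dk_unit h
  rw [h1, hu.dvd_mul_left]
  exact te_pD hD

/-- the square of `D` modulo three -/
lemma D_sq (hk : k ≠ 0) (hD : Dt π e) (h : Dk k π e D) :
    ∃ q : Ei, D ^ 2 - 1 = te * q ∧ ¬ te ∣ q := by
  obtain ⟨m, hm⟩ := three_dvd hD
  have hp : pD π e = 1 + 3 * m := by linear_combination hm
  have h2 : D ^ 2 = (w ^ k.val) ^ 2 * (pD π e) ^ 2 := by
    rcases h with h | h <;> rw [h] <;> ring
  obtain ⟨u, hu, hu1⟩ : ∃ u : Ei, IsUnit u ∧ ((w : Ei) ^ k.val) ^ 2 - 1 = te * u := by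
    have hw3 : (w : Ei) ^ 3 = 1 := by decide
    have hk' := zk hk
    rcases hk' with rfl | rfl
    · refine ⟨w, isUnit_w, ?_⟩
      rw [← w2_sub_one]
      decide
    · refine ⟨-w ^ 2, (isUnit_w.pow 2).neg, ?_⟩
      rw [← w_sub_one]
      decide
  refine ⟨u - te * ((w ^ k.val) ^ 2 * (2 * m + 3 * m ^ 2)), ?_, ?_⟩
  · rw [h2, hp]
    linear_combination hu1 + (w ^ k.val) ^ 2 * (2 * m + 3 * m ^ 2) * te_sq
  · intro h3
    apply te_prime.not_isUnit
    have h4 : te ∣ u := by
      have := dvd_add h3 (Dvd.intro ((w ^ k.val) ^ 2 * (2 * m + 3 * m ^ 2)) rfl : te ∣ te * _)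
      rwa [sub_add_cancel] at this
    exact isUnit_of_dvd_unit h4 hu

lemma val_cases {c : ZMod 3} (h : c ≠ 0) : c.val = 1 ∨ c.val = 2 := by
  revert c
  decide

lemma val_le {c : ZMod 3} : c.val ≤ 2 := by
  have := ZMod.val_lt c
  omega

end ei

section
variable {K : Type} [Field K] [NumberField K] (j : Ei ≃+* 𝓞 K)
variable {J : Type} [Fintype J] {π : J → Ei} {e : J → ZMod 3} {k : ZMod 3} {D : Ei}

lemma pl_three (hD : Dt π e) (i : J) : j 3 ∉ (pl j (hD.pq i).prime).asIdeal := by
  rw [mem_pl]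
  exact (hD.pq i).norm

lemma pl_inj (hD : Dt π e) : Function.Injective fun i => pl j (hD.pq i).prime := by
  intro a b h
  by_contra hab
  have h1 : j (π a) ∈ (pl j (hD.pq b).prime).asIdeal := by
    have h2 : pl j (hD.pq a).prime = pl j (hD.pq b).prime := h
    rw [← h2, mem_pl]
  rw [mem_pl] at h1
  exact hD.nd a b hab h1

lemma val_D (h : Dk k π e D) (v : HeightOneSpectrum (𝓞 K)) :
    v.intValuation (j D) = ∏ i, v.intValuation (j (π i)) ^ (e i).val := by
  obtain ⟨u, hu, h1⟩ := dk_unit h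
  rw [h1, map_mul, map_mul, val_unit j v hu, one_mul]
  unfold pD
  rw [map_prod, map_prod]
  exact Finset.prod_congr rfl fun i _ => by rw [map_pow, map_pow]

lemma val_D_exp (hD : Dt π e) (h : Dk k π e D) (i : J) :
    (pl j (hD.pq i).prime).intValuation (j D) = exp (-((e i).val : ℤ)) := by
  rw [val_D j h, Finset.prod_eq_single i, pl_val, ← exp_nsmul]
  · congr 1
    simp
  · intro k _ hk
    have h1 : (pl j (hD.pq i).prime).intValuation (j (π k)) = 1 := by
      rw [HeightOneSpectrum.intValuation_eq_one_iff, mem_pl]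
      exact hD.nd k i hk
    rw [h1, one_pow]
  · intro h
    exact absurd (Finset.mem_univ i) h

lemma val_D_one (h : Dk k π e D) {v : HeightOneSpectrum (𝓞 K)} (hv : ∀ i, j (π i) ∉ v.asIdeal) :
    v.intValuation (j D) = 1 := by
  rw [val_D j h]
  exact Finset.prod_eq_one fun i _ => by
    rw [HeightOneSpectrum.intValuation_eq_one_iff.2 (hv i), one_pow]

lemma val_D_ge (hD : Dt π e) (h : Dk k π e D) (v : HeightOneSpectrum (𝓞 K)) :
    (exp (-2 : ℤ) : ℤᵐ⁰) ≤ v.intValuation (j D) := by
  by_cases hv : ∀ i, j (π i) ∉ v.asIdeal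
  · rw [val_D_one j h hv, ← exp_zero, exp_le_exp]
    norm_num
  · push Not at hv
    obtain ⟨i, hi⟩ := hv
    rw [eq_pl j (hD.pq i).prime hi, val_D_exp j hD h, exp_le_exp]
    have := val_le (c := e i)
    omega

lemma mem_D (hD : Dt π e) (v : HeightOneSpectrum (𝓞 K)) (h : Dk k π e D) :
    j D ∈ v.asIdeal ↔ ∃ i, j (π i) ∈ v.asIdeal := by
  constructor
  · intro h2
    by_contra hc
    push Not at hc
    have h3 := val_D_one j h hc
    rw [HeightOneSpectrum.intValuation_eq_one_iff] at h3
    exact h3 h2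
  · rintro ⟨i, hi⟩
    have h1 := val_D_exp j hD h i
    rw [← eq_pl j (hD.pq i).prime hi] at h1
    rw [← v.intValuation_lt_one_iff_mem, h1, ← exp_zero, exp_lt_exp]
    rcases val_cases (hD.e0 i) with h3 | h3 <;> rw [h3] <;> norm_num

/-- **the Tamagawa numbers** -/
theorem tam_gen (hD : Dt π e) (h : Dk k π e D)
    (h9 : k = 0 → ¬ (9 : ℤ) ∣ nr (pD π e) - 1) :
    ∃ c : HeightOneSpectrum (𝓞 K) → ℕ, IsTam (ED (j D : K)) c ∧
      (∀ v, j D ∈ v.asIdeal → c v = 3) ∧ (∀ v, j D ∉ v.asIdeal → ¬ 3 ∣ c v) ∧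
      ∃ m : ℕ, ¬ 3 ∣ m ∧ ∏ᶠ v, c v = 3 ^ Fintype.card J * m := by
  have hD0 : D ≠ 0 := h.ne hD
  have hjD0 : ((j D : 𝓞 K) : K) ≠ 0 := by
    intro h0
    have h1 : j D = 0 := by
      apply RingOfIntegers.ext
      exact h0
    exact hD0 ((map_eq_zero_iff j j.injective).1 h1)
  have hsub : ∀ v : HeightOneSpectrum (𝓞 K), ∃ H : AddSubgroup
      ((ED (j D : K)).baseChange (v.adicCompletion K)).toAffine.Point,
      ∀ P, P ∈ H ↔ NonsingRed Valued.v
        ((ED (j D : K)).baseChange (v.adicCompletion K)) P := by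
    intro v
    apply sub_ex Pool.Agent.Y891.CTK.e0k Valued.v (bc_ED _)
    · have h1 : (27 : v.adicCompletion K) * (algebraMap K (v.adicCompletion K)
          ((j D : 𝓞 K) : K)) ^ 4 = algebraMap K (v.adicCompletion K)
          (27 * ((j D : 𝓞 K) : K) ^ 4) := by
        rw [map_mul, map_pow, map_ofNat]
      rw [h1, map_ne_zero]
      exact mul_ne_zero (by norm_num) (pow_ne_zero _ hjD0)
    · rw [val_eq]
      exact v.intValuation_le_one _
  choose H hH using hsub
  have hθ1 : (algebraMap K ((pl j te_prime).adicCompletion K) ((j te : 𝓞 K) : K)) ^ 2 = -3 := by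
    have h1 : ((j te : 𝓞 K) : K) ^ 2 = -3 := by
      have h2 : (j te) ^ 2 = -3 := by rw [← map_pow, te_sq, map_neg, map_ofNat]
      have h3 := congrArg (algebraMap (𝓞 K) K) h2
      rw [map_pow, map_neg, map_ofNat] at h3
      exact h3
    rw [← map_pow, h1, map_neg, map_ofNat]
  have hθ2 : Valued.v (algebraMap K ((pl j te_prime).adicCompletion K) ((j te : 𝓞 K) : K)) =
      exp (-1 : ℤ) := by rw [val_eq, pl_val]
  -- the indices
  have hA : (H (pl j te_prime)).index = 1 ∨ (H (pl j te_prime)).index = 2 ∨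
      (H (pl j te_prime)).index = 4 := by
    by_cases hk : k = 0
    · obtain ⟨m, hm⟩ := three_dvd hD
      have hm' : pD π e = 1 + 3 * m := by linear_combination hm
      have hte : ¬ te ∣ m := by
        have h10 := h9 hk
        rw [hm'] at h10
        exact te_m h10
      have hc : ((j D : 𝓞 K) : K) = ((j (pD π e) : 𝓞 K) : K) ∨
          -((j D : 𝓞 K) : K) = ((j (pD π e) : 𝓞 K) : K) := by
        have h0 : (w : Ei) ^ (0 : ZMod 3).val = 1 := by decide
        rw [hk] at h
        rcases h with h | h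
        · left
          rw [h, h0, one_mul]
        · right
          rw [h, h0, one_mul, map_neg]
          exact neg_neg _
      refine idx_pm Valued.v (bc_ED _) (E := algebraMap K ((pl j te_prime).adicCompletion K)
        ((j (pD π e) : 𝓞 K) : K)) ?_ ?_
          (θ := algebraMap K ((pl j te_prime).adicCompletion K) ((j te : 𝓞 K) : K))
          (m := algebraMap K ((pl j te_prime).adicCompletion K) ((j m : 𝓞 K) : K)) hθ1 hθ2 ?_ ?_
          (res j) _ (hH _)
      · rcases hc with hc | hc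
        · left
          rw [hc]
        · right
          rw [← hc, map_neg]
      · rw [ED_delta]
        have h27 : (-27 : (pl j te_prime).adicCompletion K) =
            algebraMap K ((pl j te_prime).adicCompletion K) (-27) := by rw [map_neg, map_ofNat]
        rw [h27]
        refine mul_ne_zero ((map_ne_zero _).2 (by norm_num)) (pow_ne_zero _ ?_)
        rw [map_ne_zero]
        rcases hc with hc | hc
        · rw [← hc]; exact hjD0
        · rw [← hc]; exact neg_ne_zero.2 hjD0
      · have h1 : ((j (pD π e) : 𝓞 K) : K) = 1 + 3 * ((j m : 𝓞 K) : K) := by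
          have h2 : j (pD π e) = 1 + 3 * j m := by
            rw [hm', map_add, map_mul, map_one, map_ofNat]
          have h3 := congrArg (algebraMap (𝓞 K) K) h2
          rw [map_add, map_mul, map_one, map_ofNat] at h3
          exact h3
        rw [h1, map_add, map_mul, map_one, map_ofNat]
      · apply val_one
        rw [mem_pl]
        exact hte
    · left
      obtain ⟨q, hq, hq1⟩ := D_sq hk hD h
      refine idx_w Valued.v (bc_ED _) hθ1 hθ2 ?_ ?_ (res j) _ (hH _)
      · exact val_one _ (by rw [mem_pl]; exact te_D hD h)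
      · have e1 : (algebraMap K ((pl j te_prime).adicCompletion K) ((j D : 𝓞 K) : K)) ^ 2 - 1 =
            algebraMap K ((pl j te_prime).adicCompletion K) ((j (te * q) : 𝓞 K) : K) := by
          rw [← hq]
          have h3 : ((j (D ^ 2 - 1) : 𝓞 K) : K) = ((j D : 𝓞 K) : K) ^ 2 - 1 := by
            rw [map_sub, map_pow, map_one]
            rfl
          rw [h3, map_sub, map_pow, map_one]
        rw [e1, val_eq, map_mul, map_mul, pl_val]
        have h4 : (pl j te_prime).intValuation (j q) = 1 := by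
          rw [HeightOneSpectrum.intValuation_eq_one_iff, mem_pl]
          exact hq1
        rw [h4, mul_one]
  have hB : ∀ i, (H (pl j (hD.pq i).prime)).index = 3 := by
    intro i
    refine td2 Valued.v (bc_ED _) ?_ (val_cases (hD.e0 i)) ?_ _ (hH _)
    · rw [three_eq j]
      exact val_one _ (pl_three j hD i)
    · rw [val_eq]
      exact val_D_exp j hD h i
  have hC : ∀ v : HeightOneSpectrum (𝓞 K), j 3 ∉ v.asIdeal → (∀ i, j (π i) ∉ v.asIdeal) →
      (H v).index = 1 := by
    intro v h3 hi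
    refine idx_one tg Valued.v (bc_ED _) ?_ ?_ _ (hH _)
    · rw [three_eq j]
      exact val_one _ h3
    · refine val_one _ fun h5 => ?_
      obtain ⟨i, h6⟩ := (mem_D j hD v h).1 h5
      exact hi i h6
  -- the support
  have hsupp : Function.mulSupport (fun v => (H v).index) ⊆
      ((insert (pl j te_prime) (Finset.univ.image fun i => pl j (hD.pq i).prime) :
        Finset (HeightOneSpectrum (𝓞 K))) : Set (HeightOneSpectrum (𝓞 K))) := by
    intro v hv
    rw [Function.mem_mulSupport] at hv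
    by_contra hcon
    apply hv
    rw [Finset.mem_coe, Finset.mem_insert, Finset.mem_image, not_or] at hcon
    refine hC v (fun h => hcon.1 (three_mem j h)) fun i hi => hcon.2 ⟨i, Finset.mem_univ _, ?_⟩
    exact (eq_pl j (hD.pq i).prime hi).symm
  refine ⟨fun v => (H v).index, ⟨fun v => ⟨min_gen j (te_D hD h) v (val_D_ge j hD h v), H v, hH v,
    rfl⟩, ?_⟩, ?_, ?_, (H (pl j te_prime)).index, ?_, ?_⟩
  · exact (Finset.finite_toSet _).subset hsupp
  · intro v hv
    obtain ⟨i, hi⟩ := (mem_D j hD v h).1 hv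
    rw [eq_pl j (hD.pq i).prime hi]
    exact hB i
  · intro v hv
    have hi : ∀ i, j (π i) ∉ v.asIdeal := fun i hi => hv ((mem_D j hD v h).2 ⟨i, hi⟩)
    by_cases h3 : j 3 ∈ v.asIdeal
    · rw [three_mem j h3]
      show ¬ 3 ∣ (H (pl j te_prime)).index
      rcases hA with h | h | h <;> rw [h] <;> norm_num
    · show ¬ 3 ∣ (H v).index
      rw [hC v h3 hi]
      norm_num
  · rcases hA with h | h | h <;> rw [h] <;> norm_num
  · rw [finprod_eq_prod_of_mulSupport_subset _ hsupp, Finset.prod_insert, Finset.prod_image]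
    · rw [Finset.prod_congr rfl fun i _ => hB i, Finset.prod_const, Finset.card_univ]
      ring
    · intro a _ b _ h
      exact pl_inj j hD h
    · intro h
      rw [Finset.mem_image] at h
      obtain ⟨i, -, hi⟩ := h
      apply pl_three j hD i
      rw [hi, mem_pl]
      exact ⟨-te, by linear_combination te_sq⟩

end

end Pool.Agent.H508.W
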