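import Pool.Agent.H428.TP.Loc

/-!
# Local computations for `y² + D y = x³` at the primes dividing `D` exactly twice, minimality

Adapted from `Pool.Graph.R_seed8.Y350.CTK.Loc` and `Pool.Agent.H428.TP.Loc`.
-/

set_option autoImplicit false
set_option linter.unusedSectionVars false

open scoped Classical

namespace Pool.Agent.H508.W

open NumberField IsDedekindDomain WithZero WeierstrassCurve
open Pool.Agent.Y692.QS (Ei w nr)
open Pool.Agent.Y696 (NonsingRed)
open Pool.Agent.Y696.CTK (ED)
open Pool.Agent.Y350.CTK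

section td

variable {L : Type} [Field L] {v : Valuation L ℤᵐ⁰} {D : L}

/-- the heart of the matter at the primes dividing `D` -/
theorem trans_val {n : ℕ} (hn : n = 1 ∨ n = 2) {x y : L} (hd : v D = exp (-(n : ℤ))) (hx : x ≠ 0)
    (hxl : v x < 1)
    (he : y ^ 2 + D * y = x ^ 3) : 1 ≤ v (D * (y + D) / x ^ 2) ∨ 1 ≤ v (D * y / x ^ 2) := by
  have hD0 : D ≠ 0 := by
    rintro rfl
    rw [map_zero] at hd
    exact exp_ne_zero hd.symm
  have he' : y * (y + D) = x ^ 3 := by rw [← he]; ring
  have hx3 : x ^ 3 ≠ 0 := pow_ne_zero 3 hx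
  have hy : y ≠ 0 := by
    rintro rfl
    apply hx3
    rw [← he', zero_mul]
  have hyd : y + D ≠ 0 := by
    intro h
    apply hx3
    rw [← he', h, mul_zero]
  have hx2 : x ^ 2 ≠ 0 := pow_ne_zero 2 hx
  have nz : ∀ {z : L}, z ≠ 0 → v z ≠ 0 := fun h => (Valuation.ne_zero_iff v).2 h
  have g1 : ∀ {z : L}, z ≠ 0 → (1 ≤ v z ↔ 0 ≤ log (v z)) := by
    intro z hz
    rw [← log_one, log_le_log one_ne_zero (nz hz)]
  have vx : log (v x) < 0 := by
    rw [← log_one, log_lt_log (nz hx) one_ne_zero]
    exact hxl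
  have vD : log (v D) = -(n : ℤ) := by rw [hd, log_exp]
  have v1 : log (v y) + log (v (y + D)) = 3 * log (v x) := by
    rw [← log_mul (nz hy) (nz hyd), ← map_mul, he', map_pow, log_pow, nsmul_eq_mul]
    norm_num
  have v2 : log (v (D * (y + D) / x ^ 2)) = -(n : ℤ) + log (v (y + D)) - 2 * log (v x) := by
    rw [div_eq_mul_inv, map_mul, map_mul, map_inv₀, map_pow,
      log_mul (mul_ne_zero (nz hD0) (nz hyd)) (inv_ne_zero (pow_ne_zero 2 (nz hx))),
      log_mul (nz hD0) (nz hyd), log_inv, log_pow, vD, nsmul_eq_mul]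
    push_cast
    ring
  have v3 : log (v (D * y / x ^ 2)) = -(n : ℤ) + log (v y) - 2 * log (v x) := by
    rw [div_eq_mul_inv, map_mul, map_mul, map_inv₀, map_pow,
      log_mul (mul_ne_zero (nz hD0) (nz hy)) (inv_ne_zero (pow_ne_zero 2 (nz hx))),
      log_mul (nz hD0) (nz hy), log_inv, log_pow, vD, nsmul_eq_mul]
    push_cast
    ring
  have la : ∀ {a b : L}, a ≠ 0 → b ≠ 0 → a + b ≠ 0 →
      log (v (a + b)) ≤ log (v a) ∨ log (v (a + b)) ≤ log (v b) := by
    intro a b ha hb hab
    have h := v.map_add a b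
    rcases le_max_iff.1 h with h1 | h1
    · exact Or.inl ((log_le_log (nz hab) (nz ha)).2 h1)
    · exact Or.inr ((log_le_log (nz hab) (nz hb)).2 h1)
  have u1 := la hy hD0 hyd
  have u2 : log (v y) ≤ log (v (y + D)) ∨ log (v y) ≤ log (v D) := by
    have e : (y + D) + -D = y := by ring
    have h := la hyd (neg_ne_zero.2 hD0) (by rw [e]; exact hy)
    rwa [e, Valuation.map_neg] at h
  have u3 : log (v D) ≤ log (v (y + D)) ∨ log (v D) ≤ log (v y) := by
    have e : (y + D) + -y = D := by ring
    have h := la hyd (neg_ne_zero.2 hy) (by rw [e]; exact hD0)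
    rwa [e, Valuation.map_neg] at h
  rw [g1 (div_ne_zero (mul_ne_zero hD0 hyd) hx2), g1 (div_ne_zero (mul_ne_zero hD0 hy) hx2),
    v2, v3]
  rw [vD] at u1 u2 u3
  omega

end td

/-- **the index is three**, `v(D) = 1` or `2` -/
theorem td2 {L : Type} [Field L] (v : Valuation L ℤᵐ⁰) {W : WeierstrassCurve L} {D : L}
    (hW : W = ED D) (h3 : v 3 = 1) {n : ℕ} (hn : n = 1 ∨ n = 2) (hvD : v D = exp (-(n : ℤ)))
    (H : AddSubgroup W.toAffine.Point)
    (hH : ∀ P, P ∈ H ↔ NonsingRed v W P) : H.index = 3 := by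
  subst hW
  have hD0 : D ≠ 0 := by
    rintro rfl
    rw [map_zero] at hvD
    exact exp_ne_zero hvD.symm
  have hD1 : v D < 1 := by
    rw [hvD]
    refine lt_one_iff.2 (exp_le_exp.2 ?_)
    rcases hn with rfl | rfl <;> norm_num
  have h2 : v (2 : L) ≤ 1 := by
    have : (2 : L) = 3 - 1 := by norm_num
    rw [this]
    exact vsub h3.le (by rw [map_one])
  have hmem : ∀ {P : (ED D).toAffine.Point} {x y : L}, At P x y → (P ∉ H ↔ v x < 1) := by
    intro P x y h
    rw [not_mem_iff hH h]
    have he := h.eqn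
    constructor
    · rintro ⟨-, h4⟩
      rw [map_mul, h3, one_mul, map_pow] at h4
      by_contra hc
      exact absurd h4 (not_lt.2 (one_le_pow₀ (not_lt.1 hc)))
    · intro hx
      have hy : v y < 1 := by
        by_contra hc
        rw [not_lt] at hc
        have h4 : v (D * y) < v (y ^ 2) := by
          rw [map_mul, map_pow, sq]
          have h5 : v y ≠ 0 := fun h0 => by rw [h0] at hc; exact absurd hc (by simp)
          exact mul_lt_mul_of_pos_right (hD1.trans_le hc) (zero_lt_iff.2 h5)
        have h5 := Valuation.map_add_eq_of_lt_right v h4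
        rw [add_comm, he, map_pow, map_pow] at h5
        have h6 : v x ^ 3 < 1 := pow_lt_one₀ zero_le' hx (by norm_num)
        rw [h5] at h6
        exact absurd h6 (not_lt.2 (one_le_pow₀ hc))
      refine ⟨vaddl ?_ hD1, ?_⟩
      · rw [map_mul]
        exact m1l h2 hy
      · rw [map_mul, h3, one_mul, map_pow]
        exact pow_lt_one₀ zero_le' hx (by norm_num)
  obtain ⟨T, hT⟩ := exists_T (D := D) hD0
  have hTn := hT.neg
  have hTT := T_add_T hD0 hT
  refine index_of_gen _ T 3 Nat.prime_three ?_ ?_ ?_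
  · rw [hmem hT, map_zero]
    exact zero_lt_one
  · have : 3 • T = T + T + T := by abel
    rw [this, hTT, neg_add_cancel]
    exact zero_mem _
  · intro P
    by_cases hP : P ∈ H
    · exact ⟨0, by simpa using hP⟩
    obtain ⟨x, y, hA⟩ := not_mem_at hP
    have hx := (hmem hA).1 hP
    by_cases hx0 : x = 0
    · subst hx0
      have e1 : y * (y + D) = 0 := by
        have := hA.eqn
        linear_combination this
      rcases mul_eq_zero.1 e1 with h | h
      · rw [h] at hA
        refine ⟨1, ?_⟩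
        rw [one_zsmul, hA.ext hT, sub_self]
        exact zero_mem _
      · have h4 : y = -0 - D := by linear_combination h
        rw [h4] at hA
        refine ⟨-1, ?_⟩
        rw [neg_one_zsmul, hA.ext hTn, sub_self]
        exact zero_mem _
    · have hx2 : x ^ 2 ≠ 0 := pow_ne_zero 2 hx0
      have he := hA.eqn
      rcases trans_val hn hvD hx0 hx he with h | h
      · refine ⟨1, ?_⟩
        rw [one_zsmul, sub_eq_add_neg]
        obtain ⟨y3, h3'⟩ := hA.add hTn hx0
        by_contra hc
        rw [hmem h3', ← not_le] at hc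
        apply hc
        have e : ((y - (-0 - D)) / (x - 0)) ^ 2 - x - 0 = D * (y + D) / x ^ 2 := by
          rw [sub_zero, sub_zero, div_pow, eq_div_iff hx2, sub_mul, div_mul_cancel₀ _ hx2]
          linear_combination he
        rw [e]
        exact h
      · refine ⟨-1, ?_⟩
        rw [neg_one_zsmul, sub_neg_eq_add]
        obtain ⟨y3, h3'⟩ := hA.add hT hx0
        by_contra hc
        rw [hmem h3', ← not_le] at hc
        apply hc
        have e : ((y - 0) / (x - 0)) ^ 2 - x - 0 = -(D * y / x ^ 2) := by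
          rw [sub_zero, sub_zero, sub_zero, div_pow, ← neg_div, eq_div_iff hx2, sub_mul,
            div_mul_cancel₀ _ hx2]
          linear_combination he
        rw [e, Valuation.map_neg]
        exact h

/-! ### minimality -/

section
variable {K : Type} [Field K] [NumberField K]

open Pool.Agent.Y455.CTK Pool.Agent.Y350.CTK.Tam

/-- **minimality**: the valuations of `D` are at most two -/
theorem min_gen (j : Ei ≃+* 𝓞 K) {D : Ei} (h3D : ¬ te ∣ D) (v : HeightOneSpectrum (𝓞 K))
    (h2 : (exp (-2 : ℤ) : ℤᵐ⁰) ≤ v.intValuation (j D)) :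
    IsMinimal (v.adicCompletionIntegers K) ((ED (j D : K)).baseChange (v.adicCompletion K)) := by
  have hbc : (ED (j D : K)).baseChange (v.adicCompletion K) =
      ED (algebraMap (v.adicCompletionIntegers K) (v.adicCompletion K)
        (algebraMap (𝓞 K) (v.adicCompletionIntegers K) (j D))) := by
    unfold WeierstrassCurve.baseChange
    rw [ED_map]
    rfl
  rw [hbc]
  apply isMinimal_ED
  rintro u hu ⟨r, hr⟩
  have h1 : Valued.v (u : v.adicCompletion K) < 1 := (Pool.Agent.W189.NF.mem_max_iff v u).1 hu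
  have h2' : Valued.v (u : v.adicCompletion K) ≤ exp (-1 : ℤ) := Pool.Agent.Y696.exp_lt h1
  have h3 : Valued.v (r : v.adicCompletion K) ≤ 1 := r.2
  obtain ⟨δ, hδ⟩ : ∃ δ : v.adicCompletion K, δ = algebraMap K (v.adicCompletion K) (j D : K) :=
    ⟨_, rfl⟩
  have h4 : (27 : v.adicCompletion K) * δ ^ 4 =
      (u : v.adicCompletion K) ^ 12 * (r : v.adicCompletion K) := by
    have := congrArg (algebraMap (v.adicCompletionIntegers K) (v.adicCompletion K)) hr
    rw [map_mul, map_mul, map_pow, map_pow, map_ofNat] at this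
    rw [hδ]
    exact this
  have h5 : Valued.v ((27 : v.adicCompletion K) * δ ^ 4) ≤ exp (-12 : ℤ) := by
    rw [h4, map_mul, map_pow]
    calc _ ≤ (exp (-1 : ℤ)) ^ 12 * 1 := by gcongr
      _ = exp (-12 : ℤ) := by rw [mul_one, ← exp_nsmul]; rfl
  have hval : ∀ x : 𝓞 K, Valued.v (algebraMap K (v.adicCompletion K) (x : K)) =
      v.intValuation x := by
    intro x
    rw [Pool.Agent.H723R3.valued_algebraMap]
    exact HeightOneSpectrum.valuation_of_algebraMap (K := K) v x
  have hφ : ∀ x : 𝓞 K, algebraMap K (v.adicCompletion K) (x : K) =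
      ((algebraMap K (v.adicCompletion K)).comp (algebraMap (𝓞 K) K)) x := fun _ => rfl
  have h6 : (exp (-8 : ℤ) : ℤᵐ⁰) ≤ Valued.v ((27 : v.adicCompletion K) * δ ^ 4) := by
    by_cases hv : (3 : 𝓞 K) ∈ v.asIdeal
    · have e2 := val_theta j v hv
      have e1 : (27 : 𝓞 K) = -(j Pool.Agent.Y715.T.Gi.lam) ^ 6 := by
        have hsq : (j Pool.Agent.Y715.T.Gi.lam) ^ 2 = -3 := by
          rw [← map_pow, Pool.Agent.Y715.T.Gi.lam_sq, map_neg, map_ofNat]
        linear_combination ((j Pool.Agent.Y715.T.Gi.lam) ^ 4 -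
          3 * (j Pool.Agent.Y715.T.Gi.lam) ^ 2 + 9) * hsq
      have e3 : v.intValuation (j D) = 1 := by
        rw [HeightOneSpectrum.intValuation_eq_one_iff]
        intro hmem
        apply h3D
        have hv3 : j 3 ∈ v.asIdeal := by rw [map_ofNat]; exact hv
        rw [three_mem j hv3, mem_pl] at hmem
        exact hmem
      have e5 : (27 : v.adicCompletion K) * δ ^ 4 =
          algebraMap K (v.adicCompletion K) (((27 * (j D) ^ 4 : 𝓞 K)) : K) := by
        rw [hδ, hφ, hφ, map_mul, map_pow, map_ofNat]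
      rw [e5, hval, map_mul, map_pow, e3, one_pow, mul_one, e1, Valuation.map_neg, map_pow, e2,
        ← exp_nsmul, exp_le_exp]
      norm_num
    · have e2 : v.intValuation (3 : 𝓞 K) = 1 := HeightOneSpectrum.intValuation_eq_one_iff.2 hv
      have e5 : (27 : v.adicCompletion K) * δ ^ 4 =
          algebraMap K (v.adicCompletion K) (((3 ^ 3 * (j D) ^ 4 : 𝓞 K)) : K) := by
        rw [hδ, hφ, hφ, map_mul, map_pow, map_pow, map_ofNat]
        norm_num
      rw [e5, hval, map_mul, map_pow, map_pow, e2, one_pow, one_mul]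
      calc (exp (-8 : ℤ) : ℤᵐ⁰) = (exp (-2 : ℤ)) ^ 4 := by rw [← exp_nsmul]; rfl
        _ ≤ _ := by gcongr
  have h7 := h6.trans h5
  rw [exp_le_exp] at h7
  norm_num at h7

end

end Pool.Agent.H508.W
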